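import Mathlib
import Pool.Agent.H243Z.WC.Sl4

set_option autoImplicit false

open ExteriorAlgebra TensorProduct

noncomputable section

namespace Pool.Agent.Results.MP_4ef82d_al.APhiNotInjective

/-- The even/odd grading of the exterior algebra `⋀ L`. -/
abbrev Par (L : Type) [AddCommGroup L] [Module ℂ L] :
    ZMod 2 → Submodule ℂ (ExteriorAlgebra ℂ L) :=
  CliffordAlgebra.evenOdd (0 : QuadraticForm ℂ L)

/-- The objects entering the definition of `Φ`, each given by the property that determines it. -/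
structure Data (L : Type) [LieRing L] [LieAlgebra ℂ L] (H : LieSubalgebra ℂ L)
    [LieRing.IsNilpotent H] where
  /-- dual bases `x_i`, `x^i` of `L` for the Killing form -/
  n : ℕ
  b : Module.Basis (Fin n) ℂ L
  b' : Module.Basis (Fin n) ℂ L
  dual : ∀ i j, killingForm ℂ L (b i) (b' j) = if i = j then 1 else 0
  /-- the action of `L` on `⋀ L`: `act x` is the derivation extending `ad x` -/
  act : L → ExteriorAlgebra ℂ L →ₗ[ℂ] ExteriorAlgebra ℂ L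
  act_ι : ∀ x a, act x (ι ℂ a) = ι ℂ ⁅x, a⁆
  act_mul : ∀ x u w, act x (u * w) = act x u * w + u * act x w
  /-- the pairing on `⋀ L` induced by the Killing form -/
  pair : ExteriorAlgebra ℂ L →ₗ[ℂ] ExteriorAlgebra ℂ L →ₗ[ℂ] ℂ
  pair_same : ∀ (k : ℕ) (x y : Fin k → L), pair (ιMulti ℂ k x) (ιMulti ℂ k y) =
    (Matrix.of fun i j => killingForm ℂ L (x i) (y j)).det
  pair_ne : ∀ (k l : ℕ) (x : Fin k → L) (y : Fin l → L), k ≠ l →
    pair (ιMulti ℂ k x) (ιMulti ℂ l y) = 0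
  /-- `τ : S(H) → ⋀ L`, the algebra map with `h ↦ s(h) = ½ ∑ x_i ∧ [x^i, h]` -/
  tau : SymmetricAlgebra ℂ H →ₐ[ℂ] ExteriorAlgebra ℂ L
  tau_ι : ∀ h : H, tau (SymmetricAlgebra.ι ℂ H h) =
    (1 / 2 : ℂ) • ∑ i, ι ℂ (b i) * ι ℂ ⁅b' i, (h : L)⁆
  /-- the coproduct, an algebra map to the super tensor product `⋀ L ⊗ ⋀ L` -/
  cop : ExteriorAlgebra ℂ L →ₐ[ℂ] GradedTensorProduct ℂ (Par L) (Par L)
  cop_ι : ∀ x : L, cop (ι ℂ x) =
    GradedTensorProduct.of ℂ (Par L) (Par L) (ι ℂ x ⊗ₜ[ℂ] 1 + 1 ⊗ₜ[ℂ] ι ℂ x)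
  /-- the projection `L → H` along the root spaces -/
  proj : L →ₗ[ℂ] H
  proj_cartan : ∀ h : H, proj h = h
  proj_root : ∀ α : H → ℂ, α ≠ 0 → ∀ x ∈ LieAlgebra.rootSpace H α, proj x = 0

section Generic

variable {X Y S M V : Type} [AddCommMonoid X] [Module ℂ X] [AddCommMonoid Y] [Module ℂ Y]
  [AddCommMonoid S] [Module ℂ S] [AddCommMonoid M] [Module ℂ M] [AddCommMonoid V] [Module ℂ V]

/-- The transpose, for the pairing `β` on `X`, of `τ : S → X` restricted to the subspace `A`: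
`y ↦ (P ↦ β (τ P) y)`. -/
def transp (β : X →ₗ[ℂ] X →ₗ[ℂ] ℂ) (τ : S →ₗ[ℂ] X) (A : Submodule ℂ S) :
    X →ₗ[ℂ] Module.Dual ℂ A :=
  (β ∘ₗ τ ∘ₗ A.subtype).flip

/-- `(p ⊗ φ) ∘ (Id ⊗ π) ∘ Δ`. -/
def phiMap (p : X →ₗ[ℂ] Y) (φ : X →ₗ[ℂ] M) (π : X →ₗ[ℂ] X) (Δ : X →ₗ[ℂ] X ⊗[ℂ] X) :
    X →ₗ[ℂ] Y ⊗[ℂ] M :=
  TensorProduct.map p φ ∘ₗ TensorProduct.map LinearMap.id π ∘ₗ Δ

/-- `Φ ∘ f = 0`, for `Φ = (p ⊗ φ) ∘ (Id ⊗ π) ∘ Δ` and `φ` the transpose of `τ` restricted to `A`,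
for every subspace `A` of `S`. -/
def Kills (p : X →ₗ[ℂ] Y) (β : X →ₗ[ℂ] X →ₗ[ℂ] ℂ) (τ : S →ₗ[ℂ] X) (π : X →ₗ[ℂ] X)
    (Δ : X →ₗ[ℂ] X ⊗[ℂ] X) (f : V →ₗ[ℂ] X) : Prop :=
  ∀ (A : Submodule ℂ S) (v : V), phiMap p (transp β τ A) π Δ (f v) = 0

end Generic

section Ext

variable {g h : Type} [AddCommGroup g] [Module ℂ g] [AddCommGroup h] [Module ℂ h]

/-- The map `⋀ g → ⋀ h` induced by `q`. -/
def extMap (q : g →ₗ[ℂ] h) : ExteriorAlgebra ℂ g →ₗ[ℂ] ExteriorAlgebra ℂ h :=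
  (ExteriorAlgebra.map q).toLinearMap

/-- The projection onto the even part. -/
def evenProj (g : Type) [AddCommGroup g] [Module ℂ g] :
    ExteriorAlgebra ℂ g →ₗ[ℂ] ExteriorAlgebra ℂ g :=
  GradedAlgebra.proj (Par g) 0

/-- An algebra map to the super tensor product, as a linear map to the tensor product. -/
def copLin (Δ : ExteriorAlgebra ℂ g →ₐ[ℂ] GradedTensorProduct ℂ (Par g) (Par g)) :
    ExteriorAlgebra ℂ g →ₗ[ℂ] ExteriorAlgebra ℂ g ⊗[ℂ] ExteriorAlgebra ℂ g :=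
  (GradedTensorProduct.of ℂ (Par g) (Par g)).symm.toLinearMap ∘ₗ Δ.toLinearMap

/-- An algebra map `S(h) → ⋀ g`, as a linear map. -/
def tauLin (τ : SymmetricAlgebra ℂ h →ₐ[ℂ] ExteriorAlgebra ℂ g) :
    SymmetricAlgebra ℂ h →ₗ[ℂ] ExteriorAlgebra ℂ g :=
  τ.toLinearMap

end Ext

section Lie

variable {L : Type} [LieRing L] [LieAlgebra ℂ L] {H : LieSubalgebra ℂ L} [LieRing.IsNilpotent H]
  {V : Type} [AddCommGroup V] [Module ℂ V]

/-- `Φ ∘ f = 0`, for every subspace `A` of `S(H)` used in `Φ`. -/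
def Data.PhiKills (D : Data L H) (f : V →ₗ[ℂ] ExteriorAlgebra ℂ L) : Prop :=
  Kills (extMap D.proj) D.pair (tauLin D.tau) (evenProj L) (copLin D.cop) f

/-- `f` is a map of `L`-modules. -/
def Data.IsModuleMap [LieRingModule L V] (D : Data L H) (f : V →ₗ[ℂ] ExteriorAlgebra ℂ L) : Prop :=
  ∀ (x : L) (v : V), f ⁅x, v⁆ = D.act x (f v)

end Lie

/-- There are a finite-dimensional complex semisimple Lie algebra `L` with a Cartan subalgebra `H`,
a finite-dimensional irreducible `L`-module `V` and a nonzero `L`-module map `f : V → ⋀ L` with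
`Φ ∘ f = 0`, whatever subspace `A` of `S(H)` (such as the harmonic polynomials) is used in `Φ`. -/
theorem result :
    ∃ (L : Type) (_ : LieRing L) (_ : LieAlgebra ℂ L) (H : LieSubalgebra ℂ L)
      (_ : H.IsCartanSubalgebra), Module.Finite ℂ L ∧ LieAlgebra.IsSemisimple ℂ L ∧
      ∃ (D : Data L H) (V : Type) (_ : AddCommGroup V) (_ : Module ℂ V) (_ : LieRingModule L V)
        (_ : LieModule ℂ L V), Module.Finite ℂ V ∧ LieModule.IsIrreducible ℂ L V ∧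
        ∃ f : V →ₗ[ℂ] ExteriorAlgebra ℂ L, f ≠ 0 ∧ D.IsModuleMap f ∧ D.PhiKills f := by
  have := H243Z.WC.sl4_killing
  have := H243Z.WC.HH_cartan
  obtain ⟨n, b, b', hd⟩ := H243Z.WC.exists_dual H243Z.WC.SL4
  obtain ⟨q, q1, q2⟩ := H243Z.WC.exists_proj H243Z.WC.HH
  obtain ⟨V, i1, i2, i3, i4, h1, h2, f, f1, f2, f3⟩ := H243Z.WC.exists_irred
  refine ⟨H243Z.WC.SL4, inferInstance, inferInstance, H243Z.WC.HH, this, inferInstance,
    inferInstance,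
    { n := n, b := b, b' := b', dual := hd
      act := fun x => H243Z.WC.rho _ x
      act_ι := fun x a => H243Z.WC.der_ι _ a
      act_mul := fun x u w => H243Z.WC.der_mul _ u w
      pair := H243Z.WC.pair (killingForm ℂ _)
      pair_same := H243Z.WC.pair_det _
      pair_ne := H243Z.WC.pair_ne _
      tau := H243Z.WC.tau b b' _
      tau_ι := H243Z.WC.tau_ι _
      cop := H243Z.WC.cop
      cop_ι := H243Z.WC.cop_ι
      proj := q, proj_cartan := q1, proj_root := q2 },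
    V, i1, i2, i3, i4, h1, h2, f, f1, f2, fun A v => ?_⟩
  exact H243Z.WC.phi_KK hd _ H243Z.WC.HH_finrank q _
    (fun y hy => LinearMap.ext fun P => hy P.1) (f3 v)

end Pool.Agent.Results.MP_4ef82d_al.APhiNotInjective
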